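import Pool.Agent.Lib_helper65.RBO.Defs

/-!
# Block CMP: comparison of the limits from the comparison after finitely many periods
-/

namespace Pool.Agent.Lib_helper48.RBO

open Filter Topology
open Pool.Agent.Lib_helper65.RB Pool.Agent.Lib_helper65.RBO

/-- The statement of block CC (for the coprime pair `a`, `b`). -/
def SlopeSt (a b : ℕ) : Prop := ∀ (P : ℕ → Prop) [DecidablePred P] (v : ℕ → ℝ)
    (_ : ∀ n < b, 0 < v n) {ω Θ : ℝ} (_ : 0 < ω) (_ : ω < 1) (_ : 1 < Θ),
    ω * (LL a b (fun n => if P n then Θ * v n else v n) - LL a b v) ≤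
      (Θ - 1) * (LL a b v - LL a b (fun n => if P n then (1 - ω) * v n else v n))

/-- The conclusion of block LIM. -/
def LimSt (a b : ℕ) (A B A' B' : ℝ) : Prop :=
    ∃ (P : ℕ → Prop) (E : ℕ) (ω C K t0 : ℝ), Even E ∧ 0 < ω ∧ ω < 1 ∧ 0 < C ∧ 0 < K ∧ 0 < t0 ∧
      ∀ t, 0 < t → t < t0 → ∀ m < b,
        (P m → wsol a b (runv a b t A B) (m + E) ≤ (1 - ω) * wsol a b (runv a b t A' B') (m + E) ∧
          t ≤ K * wsol a b (runv a b t A' B') (m + E)) ∧
        (¬ P m → wsol a b (runv a b t A B) (m + E) ≤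
            (1 + C * t) * wsol a b (runv a b t A' B') (m + E) ∧
          1 ≤ K * wsol a b (runv a b t A' B') (m + E))

theorem runv_pos (a b : ℕ) {t A B : ℝ} (ht : 0 < t) (hA : 0 < A) (hB : 0 < B) (n : ℕ) :
    0 < runv a b t A B n := by
  unfold runv
  split_ifs <;> positivity

/-- The limit tends to zero with `t`. -/
theorem LL_runv_small {a b : ℕ} (ha : Odd a) (hb : Odd b) (hab : a < b) (hc : Nat.Coprime a b)
    (hN : 8 ≤ a + b) {A B : ℝ} (hA : 0 < A) (hB : 0 < B) {ε : ℝ} (hε : 0 < ε) :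
    ∃ t0 : ℝ, 0 < t0 ∧ ∀ t, 0 < t → t < t0 → LL a b (runv a b t A B) < ε := by
  have ha0 := ha.pos
  have hcN : Nat.Coprime a (a + b) := by simpa using hc
  obtain ⟨q, hq⟩ : ∃ q, a * q % (a + b) = 1 := by
    obtain ⟨q, _, hq⟩ := Nat.exists_mul_mod_eq_one_of_coprime hcN (by omega)
    exact ⟨q, hq⟩
  have hN6 : 6 ≤ a + b := by omega
  have hα : 0 < alp a b := alp_pos ha hb hab hc hN6 hq
  obtain ⟨m, M, hm, hM, h⟩ := asym ha hb hab hc hN6 (c1 := 1) (c2 := 1) one_pos one_pos
  set c : ℝ := 1 + A + 2 * B with hcdef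
  have hcpos : 0 < c := by positivity
  have hlim : Tendsto (fun t : ℝ => c * (M * t ^ (alp a b))) (𝓝 0) (𝓝 (c * (M * 0 ^ (alp a b)))) :=
    ((Real.continuousAt_rpow_const 0 (alp a b) (Or.inr hα.le)).tendsto.const_mul M).const_mul c
  rw [Real.zero_rpow hα.ne', mul_zero, mul_zero] at hlim
  have hev := hlim.eventually (gt_mem_nhds hε)
  obtain ⟨δ, hδ, hball⟩ := Metric.eventually_nhds_iff.1 hev
  refine ⟨min δ 1, lt_min hδ one_pos, fun t ht0 ht => ?_⟩
  have ht1 : t < 1 := ht.trans_le (min_le_right _ _)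
  have hsm := hball (y := t) (by
    rw [Real.dist_eq, sub_zero, abs_of_pos ht0]; exact ht.trans_le (min_le_left _ _))
  have h2 := (h t ht0 ht1 (fun n => if n = b - 1 ∨ n = b - 1 - a then t else 1)
    (fun n _ => ⟨by rw [one_mul], by rw [one_mul]⟩)).2
  have hpos : ∀ n < b, 0 < (fun n => if n = b - 1 ∨ n = b - 1 - a then t else (1 : ℝ)) n := by
    intro n _
    simp only
    split_ifs
    · exact ht0
    · exact one_pos
  have h3 : LL a b (runv a b t A B) ≤
      LL a b (fun n => c * (if n = b - 1 ∨ n = b - 1 - a then t else (1 : ℝ))) := by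
    apply LL_mono ha0 hab.le hc (fun n _ => runv_pos a b ht0 hA hB n)
    intro n _
    unfold runv
    have hc1 : 1 ≤ c := by rw [hcdef]; linarith
    by_cases h1 : n = b - 1
    · rw [if_pos h1, if_pos (Or.inl h1)]
      have : A ≤ c := by rw [hcdef]; linarith
      nlinarith
    · rw [if_neg h1]
      by_cases h4 : n = b - 1 - a
      · rw [if_pos h4, if_pos (Or.inr h4)]
        nlinarith
      · have hno : ¬ (n = b - 1 ∨ n = b - 1 - a) := by tauto
        rw [if_neg h4, if_neg hno, mul_one]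
        split_ifs
        · have : t * B ≤ 1 * B := mul_le_mul_of_nonneg_right ht1.le hB.le
          rw [hcdef]; linarith
        · have : t * B ≤ 1 * B := mul_le_mul_of_nonneg_right ht1.le hB.le
          rw [hcdef]; linarith
        · exact hc1
  rw [LL_smul ha0 hab.le hc hpos hcpos] at h3
  calc LL a b (runv a b t A B) ≤ c * LL a b (fun n => if n = b - 1 ∨ n = b - 1 - a then t else 1) :=
        h3
    _ ≤ c * (M * t ^ (alp a b)) := mul_le_mul_of_nonneg_left h2 hcpos.le
    _ < ε := hsm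

/-- BLOCK CMP from the statements of the blocks CC and LIM. -/
theorem cmp_of {a b : ℕ} (ha : Odd a) (hb : Odd b) (hab : a < b) (hc : Nat.Coprime a b)
    (hN : 8 ≤ a + b) {A B A' B' : ℝ} (hA : 0 < A) (hB : 0 < B) (hA' : 0 < A') (hB' : 0 < B')
    (hslope : SlopeSt a b) (hlim : LimSt a b A B A' B') :
    ∃ t0 : ℝ, 0 < t0 ∧ ∀ t, 0 < t → t < t0 →
      LL a b (runv a b t A B) < LL a b (runv a b t A' B') := by
  classical
  have ha0 := ha.pos
  obtain ⟨P, E, ω, C, K, t0, hE, hω, hω1, hC, hK, ht0, hst⟩ := hlim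
  have hε : 0 < ω / K / (2 * (C + 1)) := by positivity
  obtain ⟨t1, ht1, hsmall⟩ := LL_runv_small ha hb hab hc hN hA' hB' hε
  refine ⟨min (min t0 1) t1, lt_min (lt_min ht0 one_pos) ht1, fun t htp htt => ?_⟩
  have htt0 : t < t0 := htt.trans_le ((min_le_left _ _).trans (min_le_left _ _))
  have htt1 : t < 1 := htt.trans_le ((min_le_left _ _).trans (min_le_right _ _))
  have hL := hsmall t htp (htt.trans_le (min_le_right _ _))
  have hst := hst t htp htt0
  have hvp : ∀ n < b, 0 < runv a b t A B n := fun n _ => runv_pos a b htp hA hB n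
  have hvp' : ∀ n < b, 0 < runv a b t A' B' n := fun n _ => runv_pos a b htp hA' hB' n
  have hW := wsol_isW ha0 hab.le (runv a b t A B)
  have hW' := wsol_isW ha0 hab.le (runv a b t A' B')
  have hwi : ∀ n < b, 0 < wsol a b (runv a b t A B) n := fun n hn => by
    rw [wsol_init hn]; exact hvp n hn
  have hwi' : ∀ n < b, 0 < wsol a b (runv a b t A' B') n := fun n hn => by
    rw [wsol_init hn]; exact hvp' n hn
  have hwp := hW.pos (by omega) ha0 hab.le hwi
  have hwp' := hW'.pos (by omega) ha0 hab.le hwi'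
  -- the limits are the limits of the shifted sequences
  have e1 : LL a b (fun n => wsol a b (runv a b t A B) (n + E)) = LL a b (runv a b t A B) := by
    rw [LL_shift_even ha0 hab.le hc hW hwi hE]
    exact LL_congr ha0 hab.le hc hwi (fun n hn => wsol_init hn)
  have e2 : LL a b (fun n => wsol a b (runv a b t A' B') (n + E)) = LL a b (runv a b t A' B') := by
    rw [LL_shift_even ha0 hab.le hc hW' hwi' hE]
    exact LL_congr ha0 hab.le hc hwi' (fun n hn => wsol_init hn)
  obtain ⟨V, hV⟩ : ∃ V : ℕ → ℝ, V = fun n => wsol a b (runv a b t A' B') (n + E) := ⟨_, rfl⟩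
  have hVp : ∀ n < b, 0 < V n := fun n _ => by rw [hV]; exact hwp' _
  rw [← hV] at e2
  have hVn : ∀ n, wsol a b (runv a b t A' B') (n + E) = V n := fun n => by rw [hV]
  -- step 1
  have hCt : 0 < 1 + C * t := by positivity
  have h1ω : 0 < 1 - ω := by linarith
  have hφp : ∀ n < b, 0 < (fun n => if P n then (1 - ω) * V n else V n) n := by
    intro n hn
    simp only
    split_ifs
    · exact mul_pos h1ω (hVp n hn)
    · exact hVp n hn
  have s1 : LL a b (runv a b t A B) ≤
      (1 + C * t) * LL a b (fun n => if P n then (1 - ω) * V n else V n) := by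
    rw [← LL_smul ha0 hab.le hc hφp hCt, ← e1]
    apply LL_mono ha0 hab.le hc (fun n _ => hwp _)
    intro m hm
    obtain ⟨g1, g2⟩ := hst m hm
    simp only [hVn] at g1 g2
    by_cases hP : P m
    · rw [if_pos hP]
      have h1 := (g1 hP).1
      have h2 : 0 < (1 - ω) * V m := mul_pos h1ω (hVp m hm)
      have h3 : 0 < C * t := mul_pos hC htp
      nlinarith [mul_pos h3 h2]
    · rw [if_neg hP]
      exact (g2 hP).1
  -- step 2
  have hΘ : 1 < 1 / t := by rw [lt_div_iff₀ htp]; linarith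
  have s2 := hslope P V hVp hω hω1 hΘ
  have s3 : 1 / K ≤ LL a b (fun n => if P n then 1 / t * V n else V n) := by
    have hK1 : (0 : ℝ) < 1 / K := by positivity
    have hone : LL a b (fun _ => 1 / K * 1) = 1 / K * LL a b (fun _ => (1 : ℝ)) :=
      LL_smul ha0 hab.le hc (v := fun _ => (1 : ℝ)) (fun _ _ => one_pos) hK1
    have hone' : LL a b (fun _ => (1 : ℝ)) = 1 := by
      apply LL_eq ha0 hab.le hc (w := fun _ => (1 : ℝ)) _ (fun _ _ => one_pos) tendsto_const_nhds
      intro n
      exact (mean_self (n + b) one_pos).symm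
    rw [hone', mul_one] at hone
    rw [← hone]
    apply LL_mono ha0 hab.le hc (fun _ _ => hK1)
    intro m hm
    obtain ⟨g1, g2⟩ := hst m hm
    simp only [hVn] at g1 g2
    by_cases hP : P m
    · rw [if_pos hP, div_le_iff₀ hK, div_mul_eq_mul_div, div_mul_eq_mul_div, le_div_iff₀ htp]
      have := (g1 hP).2
      linarith
    · rw [if_neg hP, div_le_iff₀ hK]
      have := (g2 hP).2
      linarith
  have s4 : LL a b (fun n => if P n then (1 - ω) * V n else V n) ≤ LL a b V := by
    apply LL_mono ha0 hab.le hc hφp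
    intro n hn
    split_ifs
    · have := hVp n hn
      nlinarith
    · exact le_refl _
  have hφ0 := LL_pos ha0 hab.le hc hφp
  have hL0 : 0 < LL a b V := LL_pos ha0 hab.le hc hVp
  rw [← e2] at hL ⊢
  generalize LL a b (runv a b t A B) = L at s1 ⊢
  generalize LL a b (fun n => if P n then (1 - ω) * V n else V n) = φ at s1 s2 s4 hφ0
  generalize LL a b (fun n => if P n then 1 / t * V n else V n) = Φ at s2 s3
  generalize LL a b V = L' at s2 s4 hL hL0 ⊢
  -- `φ ≤ L' - ω t (1 / K - L')`
  have s5 : ω * (1 / K - L') * t ≤ L' - φ := by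
    have h1 : ω * (1 / K - L') ≤ (1 / t - 1) * (L' - φ) := by
      refine le_trans ?_ s2
      exact mul_le_mul_of_nonneg_left (by linarith) hω.le
    have h2 : (1 / t - 1) * (L' - φ) ≤ 1 / t * (L' - φ) :=
      mul_le_mul_of_nonneg_right (by linarith) (by linarith)
    have h3 := h1.trans h2
    rwa [div_mul_eq_mul_div, one_mul, le_div_iff₀ htp] at h3
  have hL2 : L' * (2 * (C + 1)) < ω / K := by
    rwa [lt_div_iff₀ (by positivity)] at hL
  have hωK : ω * (1 / K) = ω / K := by ring
  have h6 : φ * C + ω * L' < ω / K := by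
    have : φ * C ≤ L' * C := mul_le_mul_of_nonneg_right s4 hC.le
    have h7 : ω * L' ≤ 1 * L' := mul_le_mul_of_nonneg_right hω1.le hL0.le
    nlinarith
  have h8 : (1 + C * t) * φ < L' := by
    have h9 : (φ * C + ω * L') * t < ω / K * t := mul_lt_mul_of_pos_right h6 htp
    nlinarith
  exact s1.trans_lt h8

end Pool.Agent.Lib_helper48.RBO
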