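import Pool.Agent.Lib_helper65.RBO.Defs5

/-!
# A uniform limit of polynomials on a polydisc is an absolutely convergent double series
-/

namespace Pool.Agent.Lib_helper48.RBO

open Filter Topology Polynomial
open Pool.Agent.Lib_helper65.RBO

theorem iteratedDeriv_poly (p : Polynomial ℂ) (j : ℕ) :
    iteratedDeriv j (fun z => p.eval z) = fun z => (derivative^[j] p).eval z := by
  induction j with
  | zero => simp
  | succ j ih =>
    rw [iteratedDeriv_succ, ih]
    funext z
    rw [Polynomial.deriv, Function.iterate_succ_apply']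

theorem coeff_bound (p : Polynomial ℂ) {R M : ℝ} (hR : 0 < R)
    (h : ∀ z : ℂ, ‖z‖ ≤ R → ‖p.eval z‖ ≤ M) (j : ℕ) : ‖p.coeff j‖ ≤ M / R ^ j := by
  have h1 := Complex.norm_iteratedDeriv_le_of_forall_mem_sphere_norm_le (c := 0) j hR
    (f := fun z => p.eval z) (C := M) p.differentiable.diffContOnCl
    (fun z hz => h z (mem_sphere_zero_iff_norm.1 hz).le)
  rw [iteratedDeriv_poly] at h1
  have h2 : (derivative^[j] p).eval 0 = (j.factorial : ℂ) * p.coeff j := by
    rw [← coeff_zero_eq_eval_zero, coeff_iterate_derivative, zero_add, Nat.descFactorial_self,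
      nsmul_eq_mul]
  simp only [h2, norm_mul, Complex.norm_natCast] at h1
  have hj : (0 : ℝ) < j.factorial := by exact_mod_cast j.factorial_pos
  have h3 : (j.factorial : ℝ) * ‖p.coeff j‖ ≤ (j.factorial : ℝ) * (M / R ^ j) := by
    rw [← mul_div_assoc]; exact h1
  exact le_of_mul_le_mul_left h3 hj

theorem coeff2_bound (P : Polynomial (Polynomial ℂ)) {R M : ℝ} (hR : 0 < R)
    (h : ∀ s t : ℂ, ‖s‖ ≤ R → ‖t‖ ≤ R → ‖evalEval s t P‖ ≤ M) (i j : ℕ) :
    ‖(P.coeff j).coeff i‖ ≤ M / R ^ (i + j) := by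
  have h1 : ∀ s : ℂ, ‖s‖ ≤ R → ‖(P.coeff j).eval s‖ ≤ M / R ^ j := by
    intro s hs
    have h2 := coeff_bound (P.map (evalRingHom s)) hR (M := M)
      (fun t ht => by rw [map_evalRingHom_eval]; exact h s t hs ht) j
    rwa [coeff_map, coe_evalRingHom] at h2
  have h3 := coeff_bound (P.coeff j) hR h1 i
  rw [add_comm, pow_add, ← div_div]
  exact h3

theorem hasSum_evalEval (P : Polynomial (Polynomial ℂ)) (s t : ℂ) :
    HasSum (fun p : ℕ × ℕ => (P.coeff p.2).coeff p.1 * s ^ p.1 * t ^ p.2) (evalEval s t P) := by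
  classical
  set n : ℕ := P.natDegree + 1 with hn
  set m : ℕ := ∑ j ∈ Finset.range n, (P.coeff j).natDegree + 1 with hm
  have h1 : evalEval s t P = ∑ p ∈ Finset.range m ×ˢ Finset.range n,
      (P.coeff p.2).coeff p.1 * s ^ p.1 * t ^ p.2 := by
    rw [← map_evalRingHom_eval,
      eval_eq_sum_range' (n := n) (lt_of_le_of_lt (natDegree_map_le) (Nat.lt_succ_self _)),
      Finset.sum_product_right]
    refine Finset.sum_congr rfl fun j hj => ?_
    rw [coeff_map, coe_evalRingHom, eval_eq_sum_range' (n := m), Finset.sum_mul]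
    have : (P.coeff j).natDegree ≤ ∑ j ∈ Finset.range n, (P.coeff j).natDegree :=
      Finset.single_le_sum (f := fun j => (P.coeff j).natDegree) (fun _ _ => Nat.zero_le _) hj
    omega
  rw [h1]
  apply hasSum_sum_of_ne_finset_zero
  rintro ⟨i, j⟩ hp
  have h2 : (P.coeff j).coeff i = 0 := by
    rw [Finset.mem_product, Finset.mem_range, Finset.mem_range, not_and_or] at hp
    simp only at hp
    by_cases hj : j < n
    · have hi : ¬ i < m := by tauto
      apply coeff_eq_zero_of_natDegree_lt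
      have : (P.coeff j).natDegree ≤ ∑ j ∈ Finset.range n, (P.coeff j).natDegree :=
        Finset.single_le_sum (f := fun j => (P.coeff j).natDegree) (fun _ _ => Nat.zero_le _)
          (Finset.mem_range.2 hj)
      omega
    · rw [coeff_eq_zero_of_natDegree_lt (p := P) (by omega), coeff_zero]
  simp only [h2]
  ring

theorem summable_coeff (P : Polynomial (Polynomial ℂ)) (r : ℝ) :
    Summable (fun p : ℕ × ℕ => ‖(P.coeff p.2).coeff p.1‖ * r ^ (p.1 + p.2)) := by
  have h := (hasSum_evalEval P (r : ℂ) (r : ℂ)).summable.norm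
  have h2 : Summable (fun p : ℕ × ℕ => ‖(P.coeff p.2).coeff p.1‖ * |r| ^ (p.1 + p.2)) := by
    refine h.congr fun p => ?_
    rw [norm_mul, norm_mul, norm_pow, norm_pow, Complex.norm_real, Real.norm_eq_abs, mul_assoc,
      ← pow_add]
  refine Summable.of_norm_bounded h2 fun p => ?_
  rw [norm_mul, norm_norm, norm_pow, Real.norm_eq_abs]

/-- BLOCK P1. -/
theorem app_series {R : ℝ} (hR : 0 < R) {F : ℂ → ℂ → ℂ} (hF : App R F) :
    ∃ c : ℕ → ℕ → ℂ, ∀ r, 0 < r → r < R →
      Summable (fun p : ℕ × ℕ => ‖c p.1 p.2‖ * r ^ (p.1 + p.2)) ∧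
      ∀ s t : ℂ, ‖s‖ ≤ r → ‖t‖ ≤ r → F s t = ∑' p : ℕ × ℕ, c p.1 p.2 * s ^ p.1 * t ^ p.2 := by
  set e : ℕ → ℝ := fun n => 1 / ((n : ℝ) + 1) with he
  have he0 : ∀ n, 0 < e n := fun n => by rw [he]; positivity
  have hanti : ∀ n m : ℕ, n ≤ m → e m ≤ e n := by
    intro n m h
    have : (n : ℝ) ≤ m := by exact_mod_cast h
    exact one_div_le_one_div_of_le (by positivity) (by linarith)
  have hlim : Tendsto e atTop (𝓝 0) := tendsto_one_div_add_atTop_nhds_zero_nat
  choose P hP using fun n : ℕ => hF (e n) (he0 n)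
  have hdiff : ∀ n m i j, ‖((P n).coeff j).coeff i - ((P m).coeff j).coeff i‖ ≤
      (e n + e m) / R ^ (i + j) := by
    intro n m i j
    have h1 := coeff2_bound (P n - P m) hR (M := e n + e m) (fun s t hs ht => by
      rw [evalEval_sub]
      have h2 := hP n s t hs ht
      have h3 := hP m s t hs ht
      have h4 : evalEval s t (P n) - evalEval s t (P m) =
          (F s t - evalEval s t (P m)) - (F s t - evalEval s t (P n)) := by ring
      rw [h4]
      exact (norm_sub_le _ _).trans (by linarith)) i j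
    rwa [coeff_sub, coeff_sub] at h1
  have hcauchy : ∀ i j, CauchySeq (fun n => ((P n).coeff j).coeff i) := by
    intro i j
    apply cauchySeq_of_le_tendsto_0 (fun N => 2 * e N / R ^ (i + j))
    · intro n m N hn hm
      rw [dist_eq_norm]
      refine (hdiff n m i j).trans ?_
      apply div_le_div_of_nonneg_right _ (by positivity)
      have := hanti N n hn
      have := hanti N m hm
      linarith
    · have := (hlim.const_mul 2).div_const (R ^ (i + j))
      simpa using this
  choose c hc using fun i j => cauchySeq_tendsto_of_complete (hcauchy i j)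
  have hcn : ∀ n i j, ‖c i j - ((P n).coeff j).coeff i‖ ≤ 2 * e n / R ^ (i + j) := by
    intro n i j
    have h1 : Tendsto (fun m => ‖((P m).coeff j).coeff i - ((P n).coeff j).coeff i‖) atTop
        (𝓝 ‖c i j - ((P n).coeff j).coeff i‖) := ((hc i j).sub_const _).norm
    refine le_of_tendsto h1 ?_
    filter_upwards [eventually_ge_atTop n] with m hm
    refine (hdiff m n i j).trans ?_
    apply div_le_div_of_nonneg_right _ (by positivity)
    have := hanti n m hm
    linarith
  refine ⟨c, fun r hr hrR => ?_⟩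
  set ρ : ℝ := r / R with hρ
  have hρ0 : 0 ≤ ρ := by positivity
  have hρ1 : ρ < 1 := by rw [hρ, div_lt_one hR]; exact hrR
  have hgeo : Summable (fun p : ℕ × ℕ => ρ ^ (p.1 + p.2)) := by
    have := (summable_geometric_of_lt_one hρ0 hρ1).mul_of_nonneg
      (summable_geometric_of_lt_one hρ0 hρ1) (fun n => by positivity) (fun n => by positivity)
    refine this.congr fun p => ?_
    rw [pow_add]
  have hb : ∀ n (p : ℕ × ℕ), ‖c p.1 p.2 - ((P n).coeff p.2).coeff p.1‖ * r ^ (p.1 + p.2) ≤
      2 * e n * ρ ^ (p.1 + p.2) := by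
    intro n p
    have h1 := mul_le_mul_of_nonneg_right (hcn n p.1 p.2) (by positivity : 0 ≤ r ^ (p.1 + p.2))
    refine h1.trans (le_of_eq ?_)
    rw [hρ, div_pow]
    field_simp
  have hsum : Summable (fun p : ℕ × ℕ => ‖c p.1 p.2‖ * r ^ (p.1 + p.2)) := by
    refine Summable.of_nonneg_of_le (fun p => by positivity) (fun p => ?_)
      ((summable_coeff (P 0) r).add (hgeo.mul_left (2 * e 0)))
    have h1 : ‖c p.1 p.2‖ ≤ ‖((P 0).coeff p.2).coeff p.1‖ +
        ‖c p.1 p.2 - ((P 0).coeff p.2).coeff p.1‖ := by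
      have := norm_add_le (((P 0).coeff p.2).coeff p.1) (c p.1 p.2 - ((P 0).coeff p.2).coeff p.1)
      simpa using this
    have h2 := mul_le_mul_of_nonneg_right h1 (by positivity : 0 ≤ r ^ (p.1 + p.2))
    have h3 := hb 0 p
    rw [add_mul] at h2
    linarith
  refine ⟨hsum, fun s t hs ht => ?_⟩
  set S : ℂ := ∑' p : ℕ × ℕ, c p.1 p.2 * s ^ p.1 * t ^ p.2 with hS
  have hterm : ∀ (d : ℂ) (p : ℕ × ℕ), ‖d * s ^ p.1 * t ^ p.2‖ ≤ ‖d‖ * r ^ (p.1 + p.2) := by
    intro d p
    rw [norm_mul, norm_mul, norm_pow, norm_pow, pow_add, mul_assoc]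
    apply mul_le_mul_of_nonneg_left _ (norm_nonneg _)
    exact mul_le_mul (pow_le_pow_left₀ (norm_nonneg _) hs _) (pow_le_pow_left₀ (norm_nonneg _) ht _)
      (by positivity) (by positivity)
  have hcs : HasSum (fun p : ℕ × ℕ => c p.1 p.2 * s ^ p.1 * t ^ p.2) S :=
    (Summable.of_norm_bounded hsum fun p => hterm (c p.1 p.2) p).hasSum
  set G : ℝ := ∑' p : ℕ × ℕ, ρ ^ (p.1 + p.2) with hG
  have hG0 : 0 ≤ G := tsum_nonneg fun p => by positivity
  have hle : ∀ n, ‖F s t - S‖ ≤ (1 + 2 * G) * e n := by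
    intro n
    have h1 := hcs.sub (hasSum_evalEval (P n) s t)
    have h2 : ‖S - evalEval s t (P n)‖ ≤ 2 * e n * G := by
      refine h1.norm_le_of_bounded (hgeo.hasSum.mul_left (2 * e n)) fun p => ?_
      have h3 : c p.1 p.2 * s ^ p.1 * t ^ p.2 - ((P n).coeff p.2).coeff p.1 * s ^ p.1 * t ^ p.2 =
          (c p.1 p.2 - ((P n).coeff p.2).coeff p.1) * s ^ p.1 * t ^ p.2 := by ring
      rw [h3]
      exact (hterm _ p).trans (hb n p)
    have h4 := hP n s t (hs.trans hrR.le) (ht.trans hrR.le)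
    have h5 : F s t - S = (F s t - evalEval s t (P n)) - (S - evalEval s t (P n)) := by ring
    rw [h5]
    refine (norm_sub_le _ _).trans ?_
    have := he0 n
    nlinarith
  have h6 : ‖F s t - S‖ ≤ 0 := by
    have h7 : Tendsto (fun n => (1 + 2 * G) * e n) atTop (𝓝 0) := by
      simpa using hlim.const_mul (1 + 2 * G)
    exact ge_of_tendsto' h7 hle
  have h8 : F s t - S = 0 := by
    rw [← norm_eq_zero]; exact le_antisymm h6 (norm_nonneg _)
  exact sub_eq_zero.1 h8

end Pool.Agent.Lib_helper48.RBO
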