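import Pool.Agent.Lib_helper65.RBO.Defs6
import Pool.Agent.Lib_helper48.RBO.P1

/-!
# A uniform limit of polynomials on a polydisc is an absolutely convergent power series
-/

namespace Pool.Agent.Lib_helper48.RBO

open Filter Topology
open Pool.Agent.Lib_helper65.RBO

theorem mcoeff_bound : ∀ (b : ℕ) (P : MvPolynomial (Fin b) ℂ) {R M : ℝ}, 0 < R →
    (∀ z : Fin b → ℂ, (∀ i, ‖z i‖ ≤ R) → ‖MvPolynomial.eval z P‖ ≤ M) →
    ∀ α : Fin b →₀ ℕ, ‖P.coeff α‖ ≤ M / R ^ (∑ i, α i) := by
  intro b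
  induction b with
  | zero =>
    intro P R M hR h α
    have h1 := h 0 (fun i => i.elim0)
    have hα : α = 0 := Subsingleton.elim _ _
    subst hα
    rw [MvPolynomial.eq_C_of_isEmpty P, MvPolynomial.eval_C] at h1
    simpa using h1
  | succ n ih =>
    intro P R M hR h α
    have h1 : ∀ s : Fin n → ℂ, (∀ i, ‖s i‖ ≤ R) →
        ‖MvPolynomial.eval s ((MvPolynomial.finSuccEquiv ℂ n P).coeff (α 0))‖ ≤
          M / R ^ (α 0) := by
      intro s hs
      have h2 := coeff_bound (Polynomial.map (MvPolynomial.eval s)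
        (MvPolynomial.finSuccEquiv ℂ n P)) hR (M := M) (fun y hy => by
          rw [← MvPolynomial.eval_eq_eval_mv_eval']
          apply h
          intro i
          refine Fin.cases ?_ ?_ i
          · simpa using hy
          · intro j; simpa using hs j) (α 0)
      rwa [Polynomial.coeff_map] at h2
    have h3 := ih ((MvPolynomial.finSuccEquiv ℂ n P).coeff (α 0)) hR h1 α.tail
    rw [MvPolynomial.finSuccEquiv_coeff_coeff, Finsupp.cons_tail] at h3
    rw [Fin.sum_univ_succ, pow_add, ← div_div]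
    simpa only [Finsupp.tail_apply] using h3

theorem hasSum_eval {b : ℕ} (P : MvPolynomial (Fin b) ℂ) (z : Fin b → ℂ) :
    HasSum (fun α : Fin b →₀ ℕ => P.coeff α * ∏ i, z i ^ α i) (MvPolynomial.eval z P) := by
  rw [MvPolynomial.eval_eq']
  apply hasSum_sum_of_ne_finset_zero
  intro α hα
  rw [MvPolynomial.notMem_support_iff.1 hα, zero_mul]

theorem summable_mcoeff {b : ℕ} (P : MvPolynomial (Fin b) ℂ) (r : ℝ) :
    Summable (fun α : Fin b →₀ ℕ => ‖P.coeff α‖ * r ^ (∑ i, α i)) := by
  apply summable_of_finite_support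
  refine (P.support.finite_toSet).subset ?_
  intro α hα
  rw [Function.mem_support] at hα
  rw [Finset.mem_coe, MvPolynomial.mem_support_iff]
  intro h
  apply hα
  rw [h, norm_zero, zero_mul]

theorem summable_geo : ∀ (b : ℕ) {q : ℝ}, 0 ≤ q → q < 1 →
    Summable (fun α : Fin b → ℕ => q ^ (∑ i, α i)) := by
  intro b
  induction b with
  | zero =>
    intro q _ _
    exact summable_of_finite_support (Set.toFinite _)
  | succ n ih =>
    intro q h0 h1
    rw [← (Fin.consEquiv (fun _ : Fin (n + 1) => ℕ)).summable_iff]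
    have := (summable_geometric_of_lt_one h0 h1).mul_of_nonneg (ih h0 h1)
      (fun _ => by positivity) (fun _ => by positivity)
    refine this.congr fun p => ?_
    simp [Fin.consEquiv, Fin.sum_univ_succ, pow_add]

theorem summable_geo' (b : ℕ) {q : ℝ} (h0 : 0 ≤ q) (h1 : q < 1) :
    Summable (fun α : Fin b →₀ ℕ => q ^ (∑ i, α i)) := by
  refine ((Finsupp.equivFunOnFinite.symm : (Fin b → ℕ) ≃ (Fin b →₀ ℕ)).summable_iff).1 ?_
  refine (summable_geo b h0 h1).congr fun α => ?_
  simp

/-- BLOCK G1. -/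
theorem appM_series {b : ℕ} {R : ℝ} (hR : 0 < R) {F : (Fin b → ℂ) → ℂ} (hF : AppM R F) :
    ∃ c : (Fin b →₀ ℕ) → ℂ, ∀ r, 0 < r → r < R →
      Summable (fun α : Fin b →₀ ℕ => ‖c α‖ * r ^ (∑ i, α i)) ∧
      ∀ z : Fin b → ℂ, (∀ i, ‖z i‖ ≤ r) → F z = ∑' α : Fin b →₀ ℕ, c α * ∏ i, z i ^ α i := by
  set e : ℕ → ℝ := fun n => 1 / ((n : ℝ) + 1) with he
  have he0 : ∀ n, 0 < e n := fun n => by rw [he]; positivity
  have hanti : ∀ n m : ℕ, n ≤ m → e m ≤ e n := by
    intro n m h
    have : (n : ℝ) ≤ m := by exact_mod_cast h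
    exact one_div_le_one_div_of_le (by positivity) (by linarith)
  have hlim : Tendsto e atTop (𝓝 0) := tendsto_one_div_add_atTop_nhds_zero_nat
  choose P hP using fun n : ℕ => hF (e n) (he0 n)
  have hdiff : ∀ n m (α : Fin b →₀ ℕ), ‖(P n).coeff α - (P m).coeff α‖ ≤
      (e n + e m) / R ^ (∑ i, α i) := by
    intro n m α
    have h1 := mcoeff_bound b (P n - P m) hR (M := e n + e m) (fun z hz => by
      rw [map_sub]
      have h2 := hP n z hz
      have h3 := hP m z hz
      have h4 : MvPolynomial.eval z (P n) - MvPolynomial.eval z (P m) =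
          (F z - MvPolynomial.eval z (P m)) - (F z - MvPolynomial.eval z (P n)) := by ring
      rw [h4]
      exact (norm_sub_le _ _).trans (by linarith)) α
    rwa [MvPolynomial.coeff_sub] at h1
  have hcauchy : ∀ α : Fin b →₀ ℕ, CauchySeq (fun n => (P n).coeff α) := by
    intro α
    apply cauchySeq_of_le_tendsto_0 (fun N => 2 * e N / R ^ (∑ i, α i))
    · intro n m N hn hm
      rw [dist_eq_norm]
      refine (hdiff n m α).trans ?_
      apply div_le_div_of_nonneg_right _ (by positivity)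
      have := hanti N n hn
      have := hanti N m hm
      linarith
    · have := (hlim.const_mul 2).div_const (R ^ (∑ i, α i))
      simpa using this
  choose c hc using fun α => cauchySeq_tendsto_of_complete (hcauchy α)
  have hcn : ∀ n α, ‖c α - (P n).coeff α‖ ≤ 2 * e n / R ^ (∑ i, α i) := by
    intro n α
    have h1 : Tendsto (fun m => ‖(P m).coeff α - (P n).coeff α‖) atTop
        (𝓝 ‖c α - (P n).coeff α‖) := ((hc α).sub_const _).norm
    refine le_of_tendsto h1 ?_
    filter_upwards [eventually_ge_atTop n] with m hm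
    refine (hdiff m n α).trans ?_
    apply div_le_div_of_nonneg_right _ (by positivity)
    have := hanti n m hm
    linarith
  refine ⟨c, fun r hr hrR => ?_⟩
  set ρ : ℝ := r / R with hρ
  have hρ0 : 0 ≤ ρ := by positivity
  have hρ1 : ρ < 1 := by rw [hρ, div_lt_one hR]; exact hrR
  have hgeo : Summable (fun α : Fin b →₀ ℕ => ρ ^ (∑ i, α i)) := summable_geo' b hρ0 hρ1
  have hb : ∀ n (α : Fin b →₀ ℕ), ‖c α - (P n).coeff α‖ * r ^ (∑ i, α i) ≤
      2 * e n * ρ ^ (∑ i, α i) := by
    intro n α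
    have h1 := mul_le_mul_of_nonneg_right (hcn n α) (by positivity : 0 ≤ r ^ (∑ i, α i))
    refine h1.trans (le_of_eq ?_)
    rw [hρ, div_pow]
    field_simp
  have hsum : Summable (fun α : Fin b →₀ ℕ => ‖c α‖ * r ^ (∑ i, α i)) := by
    refine Summable.of_nonneg_of_le (fun p => by positivity) (fun α => ?_)
      ((summable_mcoeff (P 0) r).add (hgeo.mul_left (2 * e 0)))
    have h1 : ‖c α‖ ≤ ‖(P 0).coeff α‖ + ‖c α - (P 0).coeff α‖ := by
      have := norm_add_le ((P 0).coeff α) (c α - (P 0).coeff α)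
      simpa using this
    have h2 := mul_le_mul_of_nonneg_right h1 (by positivity : 0 ≤ r ^ (∑ i, α i))
    have h3 := hb 0 α
    rw [add_mul] at h2
    linarith
  refine ⟨hsum, fun z hz => ?_⟩
  set S : ℂ := ∑' α : Fin b →₀ ℕ, c α * ∏ i, z i ^ α i with hS
  have hterm : ∀ (d : ℂ) (α : Fin b →₀ ℕ), ‖d * ∏ i, z i ^ α i‖ ≤ ‖d‖ * r ^ (∑ i, α i) := by
    intro d α
    rw [norm_mul, norm_prod, ← Finset.prod_pow_eq_pow_sum]
    apply mul_le_mul_of_nonneg_left _ (norm_nonneg _)
    apply Finset.prod_le_prod (fun i _ => norm_nonneg _)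
    intro i _
    rw [norm_pow]
    exact pow_le_pow_left₀ (norm_nonneg _) (hz i) _
  have hcs : HasSum (fun α : Fin b →₀ ℕ => c α * ∏ i, z i ^ α i) S :=
    (Summable.of_norm_bounded hsum fun α => hterm (c α) α).hasSum
  set G : ℝ := ∑' α : Fin b →₀ ℕ, ρ ^ (∑ i, α i) with hG
  have hG0 : 0 ≤ G := tsum_nonneg fun p => by positivity
  have hle : ∀ n, ‖F z - S‖ ≤ (1 + 2 * G) * e n := by
    intro n
    have h1 := hcs.sub (hasSum_eval (P n) z)
    have h2 : ‖S - MvPolynomial.eval z (P n)‖ ≤ 2 * e n * G := by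
      refine h1.norm_le_of_bounded (hgeo.hasSum.mul_left (2 * e n)) fun α => ?_
      have h3 : c α * ∏ i, z i ^ α i - (P n).coeff α * ∏ i, z i ^ α i =
          (c α - (P n).coeff α) * ∏ i, z i ^ α i := by ring
      rw [h3]
      exact (hterm _ α).trans (hb n α)
    have h4 := hP n z (fun i => (hz i).trans hrR.le)
    have h5 : F z - S = (F z - MvPolynomial.eval z (P n)) - (S - MvPolynomial.eval z (P n)) := by
      ring
    rw [h5]
    refine (norm_sub_le _ _).trans ?_
    have := he0 n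
    nlinarith
  have h6 : ‖F z - S‖ ≤ 0 := by
    have h7 : Tendsto (fun n => (1 + 2 * G) * e n) atTop (𝓝 0) := by
      simpa using hlim.const_mul (1 + 2 * G)
    exact ge_of_tendsto' h7 hle
  have h8 : F z - S = 0 := by
    rw [← norm_eq_zero]; exact le_antisymm h6 (norm_nonneg _)
  exact sub_eq_zero.1 h8

end Pool.Agent.Lib_helper48.RBO
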